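import Pool.Agent.V1166.Lax.Torsion

/-!
# The slicing on the bounded derived category
-/

namespace Pool.Agent.V1166.Lax

open CategoryTheory Limits Pretriangulated Triangulated DerivedCategory

universe w v u

variable {A : Type u} [Category.{v} A] [Abelian A] [HasDerivedCategory.{w} A]
  (τ : TorsionPair A)

/-- The family of subcategories of the bounded derived category. -/
def PB (φ : ℝ) : ObjectProperty (DerivedCategory.Bounded A) := fun X => PD τ φ X.obj

lemma sh_bounded (M : A) (n : ℤ) : (TStructure.t).bounded (sh M n) :=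
  ⟨⟨-n, inferInstance⟩, ⟨-n, inferInstance⟩⟩

lemma PD_bounded {φ : ℝ} {X : DerivedCategory A} (h : PD τ φ X) :
    (TStructure.t : TStructure (DerivedCategory A)).bounded X := by
  rcases h with h | ⟨n, M, hM, hn, ⟨e'⟩⟩ | ⟨n, M, hM, hn, ⟨e'⟩⟩
  · exact ObjectProperty.prop_of_isZero _ h
  · exact ObjectProperty.prop_of_iso _ e'.symm (sh_bounded M n)
  · exact ObjectProperty.prop_of_iso _ e'.symm (sh_bounded M n)

/-- Objects of the bounded derived category from bounded objects. -/
abbrev mkB (X : DerivedCategory A) (hX : (TStructure.t).bounded X) :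
    DerivedCategory.Bounded A := ⟨X, hX⟩

set_option backward.defeqAttrib.useBackward true in
set_option backward.isDefEq.respectTransparency false in
lemma triangle_bounded {X Y Z : DerivedCategory A} (f : X ⟶ Y) (g : Y ⟶ Z)
    (h : Z ⟶ X⟦(1 : ℤ)⟧) (hT : Triangle.mk f g h ∈ distTriang (DerivedCategory A))
    (hX : (TStructure.t).bounded X) (hY : (TStructure.t).bounded Y)
    (hZ : (TStructure.t).bounded Z) :
    ∃ (f' : mkB X hX ⟶ mkB Y hY) (g' : mkB Y hY ⟶ mkB Z hZ)
      (h' : mkB Z hZ ⟶ (mkB X hX)⟦(1 : ℤ)⟧),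
      Triangle.mk f' g' h' ∈ distTriang (DerivedCategory.Bounded A) := by
  refine ⟨ObjectProperty.homMk f, ObjectProperty.homMk g,
    ObjectProperty.homMk (h ≫ ((Bounded.ι (C := A)).commShiftIso (1 : ℤ)).inv.app (mkB X hX)), ?_⟩
  refine isomorphic_distinguished _ hT _
    (Triangle.isoMk _ _ (Iso.refl _) (Iso.refl _) (Iso.refl _) ?_ ?_ ?_)
  · simp
  · simp
  · simp

lemma isZero_of_obj {X : DerivedCategory.Bounded A} (h : IsZero X.obj) : IsZero X := by
  rw [IsZero.iff_id_eq_zero]
  apply (Bounded.ι (C := A)).map_injective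
  exact h.eq_of_src _ _

lemma isZero_obj {X : DerivedCategory.Bounded A} (h : IsZero X) : IsZero X.obj :=
  (Bounded.ι (C := A)).map_isZero h

lemma HN_bounded {X : DerivedCategory A} {L : List ℝ} (h : HN (PD τ) X L) :
    ∀ hX : (TStructure.t).bounded X, HN (PB τ) (mkB X hX) L := by
  induction h with
  | zero h0 => exact fun hX => HN.zero (isZero_of_obj h0)
  | step f g h hT hA hA0 hφ hX' ih =>
    intro hX
    have hX'b := ObjectProperty.ext_of_isTriangulatedClosed₁ _ _ hT hX (PD_bounded τ hA)
    obtain ⟨f', g', h', hT'⟩ := triangle_bounded f g h hT hX'b hX (PD_bounded τ hA)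
    exact HN.step f' g' h' hT' hA (fun hh => hA0 (isZero_obj hh)) hφ (ih hX'b)

/-- The slicing on the bounded derived category defined by a torsion pair. -/
noncomputable def slicing : Slicing (DerivedCategory.Bounded A) where
  P := PB τ
  isoClosed φ X Y e h := PD_iso τ ((Bounded.ι (C := A)).mapIso e) h
  zero φ X h := Or.inl (isZero_obj h)
  biprod φ X Y hX hY := by
    have h1 : (Bounded.ι (C := A)).Additive := inferInstance
    have h2 := Functor.preservesFiniteBiproductsOfAdditive (Bounded.ι (C := A))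
    have h3 := preservesBinaryBiproducts_of_preservesBiproducts (Bounded.ι (C := A))
    exact PD_iso τ ((Bounded.ι (C := A)).mapBiprod X Y).symm (PD_biprod τ hX hY)
  shift φ X := by
    constructor
    · intro h
      exact PD_iso τ (((Bounded.ι (C := A)).commShiftIso (1 : ℤ)).symm.app X)
        ((PD_shift τ).1 h)
    · intro h
      exact (PD_shift τ).2 (PD_iso τ (((Bounded.ι (C := A)).commShiftIso (1 : ℤ)).app X) h)
  homVanish φ₁ φ₂ X Y hφ hX hY f := by
    apply (Bounded.ι (C := A)).map_injective
    rw [CategoryTheory.Functor.map_zero]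
    exact PD_hom τ hφ hX hY _
  hn X := by
    obtain ⟨⟨a, ha⟩, ⟨b, hb⟩⟩ := X.property
    have h1 : TStructure.t.IsGE X.obj (b - (b - a + 1).toNat + 1) :=
      TStructure.t.isGE_of_ge X.obj _ a (by lia)
    obtain ⟨L, hL, -⟩ := PD_hn τ (b - a + 1).toNat b X.obj hb h1
    exact ⟨L, HN_bounded τ hL X.property⟩

end Pool.Agent.V1166.Lax
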