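import Pool.Agent.V1166.Lax.JH

/-!
# The torsion pair on representations of the quiver `left ⟶ one ⟵ right`
-/

namespace Pool.Agent.V1166.Lax

open CategoryTheory Limits ZeroObject

open CategoryTheory.Limits.WalkingCospan (left right one)

universe v u

set_option linter.unusedSectionVars false

variable {B : Type u} [Category.{v} B] [Abelian B]

/-- The category of representations of the quiver `left ⟶ one ⟵ right` in `B`. -/
abbrev Rep (B : Type u) [Category.{v} B] := WalkingCospan ⥤ B

/-- The first structure map. -/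
abbrev ml (M : Rep B) : M.obj left ⟶ M.obj one := M.map WalkingCospan.Hom.inl

/-- The second structure map. -/
abbrev mr (M : Rep B) : M.obj right ⟶ M.obj one := M.map WalkingCospan.Hom.inr

/-- Constructor for morphisms of representations. -/
def rhom {M N : Rep B} (l : M.obj left ⟶ N.obj left) (o : M.obj one ⟶ N.obj one)
    (r : M.obj right ⟶ N.obj right) (hl : ml M ≫ o = l ≫ ml N) (hr : mr M ≫ o = r ≫ mr N) :
    M ⟶ N where
  app := by
    rintro (_ | _ | _)
    · exact o
    · exact l
    · exact r
  naturality := by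
    rintro (_ | _ | _) (_ | _ | _) ⟨⟩
    · change M.map (𝟙 one) ≫ o = o ≫ N.map (𝟙 one)
      rw [CategoryTheory.Functor.map_id, CategoryTheory.Functor.map_id,
        Category.id_comp, Category.comp_id]
    · exact hl
    · change M.map (𝟙 left) ≫ l = l ≫ N.map (𝟙 left)
      rw [CategoryTheory.Functor.map_id, CategoryTheory.Functor.map_id,
        Category.id_comp, Category.comp_id]
    · exact hr
    · change M.map (𝟙 right) ≫ r = r ≫ N.map (𝟙 right)
      rw [CategoryTheory.Functor.map_id, CategoryTheory.Functor.map_id,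
        Category.id_comp, Category.comp_id]

lemma rhom_left {M N : Rep B} (l : M.obj left ⟶ N.obj left) (o : M.obj one ⟶ N.obj one)
    (r : M.obj right ⟶ N.obj right) (hl : ml M ≫ o = l ≫ ml N) (hr : mr M ≫ o = r ≫ mr N) :
    (rhom l o r hl hr).app left = l := rfl

lemma rhom_one {M N : Rep B} (l : M.obj left ⟶ N.obj left) (o : M.obj one ⟶ N.obj one)
    (r : M.obj right ⟶ N.obj right) (hl : ml M ≫ o = l ≫ ml N) (hr : mr M ≫ o = r ≫ mr N) :
    (rhom l o r hl hr).app one = o := rfl

lemma rhom_right {M N : Rep B} (l : M.obj left ⟶ N.obj left) (o : M.obj one ⟶ N.obj one)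
    (r : M.obj right ⟶ N.obj right) (hl : ml M ≫ o = l ≫ ml N) (hr : mr M ≫ o = r ≫ mr N) :
    (rhom l o r hl hr).app right = r := rfl

lemma hom_ext' {M N : Rep B} {f g : M ⟶ N} (hl : f.app left = g.app left)
    (ho : f.app one = g.app one) (hr : f.app right = g.app right) : f = g := by
  ext (_ | _ | _)
  · exact ho
  · exact hl
  · exact hr

lemma isZero_rep {M : Rep B} (hl : IsZero (M.obj left)) (ho : IsZero (M.obj one))
    (hr : IsZero (M.obj right)) : IsZero M := by
  rw [IsZero.iff_id_eq_zero]
  exact hom_ext' (hl.eq_of_src _ _) (ho.eq_of_src _ _) (hr.eq_of_src _ _)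

/-- The torsion-free representations: both structure maps are monomorphisms. -/
def FF : ObjectProperty (Rep B) := fun M => Mono (ml M) ∧ Mono (mr M)

/-- The torsion representations: those that vanish at `one`. -/
def TT : ObjectProperty (Rep B) := fun M => IsZero (M.obj one)

lemma FF_sub (M N : Rep B) (i : M ⟶ N) (hi : Mono i) (hN : FF N) : FF M := by
  obtain ⟨h1, h2⟩ := hN
  have hil : Mono (i.app left) := (NatTrans.mono_iff_mono_app i).1 hi left
  have hir : Mono (i.app right) := (NatTrans.mono_iff_mono_app i).1 hi right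
  constructor
  · have : Mono (ml M ≫ i.app one) := by
      rw [i.naturality]
      exact mono_comp _ _
    exact mono_of_mono (ml M) (i.app one)
  · have : Mono (mr M ≫ i.app one) := by
      rw [i.naturality]
      exact mono_comp _ _
    exact mono_of_mono (mr M) (i.app one)

lemma id_biprod (M N : Rep B) : 𝟙 (M ⊞ N) = biprod.fst ≫ biprod.inl + biprod.snd ≫ biprod.inr :=
  biprod.total.symm

lemma FF_biprod_aux (M N : Rep B) (j : WalkingCospan) (f : j ⟶ one) (hM : Mono (M.map f))
    (hN : Mono (N.map f)) : Mono ((M ⊞ N).map f) := by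
  refine Preadditive.mono_of_cancel_zero _ (fun {W} u hu => ?_)
  have h1 : u ≫ (biprod.fst : M ⊞ N ⟶ M).app j = 0 := by
    rw [← cancel_mono (M.map f), Category.assoc, ← NatTrans.naturality, ← Category.assoc, hu,
      zero_comp, zero_comp]
  have h2 : u ≫ (biprod.snd : M ⊞ N ⟶ N).app j = 0 := by
    rw [← cancel_mono (N.map f), Category.assoc, ← NatTrans.naturality, ← Category.assoc, hu,
      zero_comp, zero_comp]
  have h3 : 𝟙 ((M ⊞ N).obj j) = (biprod.fst : M ⊞ N ⟶ M).app j ≫ (biprod.inl : M ⟶ M ⊞ N).app j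
      + (biprod.snd : M ⊞ N ⟶ N).app j ≫ (biprod.inr : N ⟶ M ⊞ N).app j := by
    exact congrArg (fun t => NatTrans.app t j) (id_biprod M N)
  rw [← Category.comp_id u, h3, Preadditive.comp_add, ← Category.assoc, h1, ← Category.assoc, h2,
    zero_comp, zero_comp, add_zero]

lemma FF_biprod (M N : Rep B) (hM : FF M) (hN : FF N) : FF (M ⊞ N) :=
  ⟨FF_biprod_aux M N _ _ hM.1 hN.1, FF_biprod_aux M N _ _ hM.2 hN.2⟩

lemma TT_biprod (M N : Rep B) (hM : TT M) (hN : TT N) : TT (M ⊞ N) := by
  unfold TT at *
  rw [IsZero.iff_id_eq_zero]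
  have h3 : 𝟙 ((M ⊞ N).obj one) =
      (biprod.fst : M ⊞ N ⟶ M).app one ≫ (biprod.inl : M ⟶ M ⊞ N).app one
      + (biprod.snd : M ⊞ N ⟶ N).app one ≫ (biprod.inr : N ⟶ M ⊞ N).app one :=
    congrArg (fun t => NatTrans.app t one) (id_biprod M N)
  rw [h3, hM.eq_of_src ((biprod.inl : M ⟶ M ⊞ N).app one) 0,
    hN.eq_of_src ((biprod.inr : N ⟶ M ⊞ N).app one) 0, comp_zero, comp_zero, add_zero]

/-- The constant representation on `M.obj one`. -/
abbrev cst (X : B) : Rep B := (Functor.const WalkingCospan).obj X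

lemma FF_cst (X : B) : FF (cst X) := by
  constructor
  · change Mono (𝟙 X)
    infer_instance
  · change Mono (𝟙 X)
    infer_instance

/-- The canonical map to the constant representation. -/
def eta (M : Rep B) : M ⟶ cst (M.obj one) :=
  rhom (ml M) (𝟙 _) (mr M) (by
    change ml M ≫ 𝟙 _ = ml M ≫ 𝟙 _
    rfl) (by
    change mr M ≫ 𝟙 _ = mr M ≫ 𝟙 _
    rfl)

lemma TT_kernel (M : Rep B) : TT (kernel (eta M)) := by
  unfold TT
  have h1 : (kernel.ι (eta M)).app one ≫ (eta M).app one = 0 := by
    rw [← NatTrans.comp_app, kernel.condition]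
    rfl
  have h2 : (kernel.ι (eta M)).app one = 0 := by
    have h3 : (eta M).app one = 𝟙 _ := rfl
    rw [h3] at h1
    rwa [Category.comp_id] at h1
  have h4 : Mono ((kernel.ι (eta M)).app one) :=
    (NatTrans.mono_iff_mono_app (kernel.ι (eta M))).1 inferInstance one
  rw [IsZero.iff_id_eq_zero, ← cancel_mono ((kernel.ι (eta M)).app one), h2, comp_zero, comp_zero]

/-- The torsion pair. -/
def repTorsion : TorsionPair (Rep B) where
  T := TT
  F := FF
  isoT M N e h := by
    exact h.of_iso (((evaluation WalkingCospan B).obj one).mapIso e.symm)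
  isoF M N e h := FF_sub N M e.inv inferInstance h
  zeroT M h := (((evaluation WalkingCospan B).obj one).map_isZero h)
  zeroF M h := by
    have h1 := (((evaluation WalkingCospan B).obj left).map_isZero h)
    have h2 := (((evaluation WalkingCospan B).obj right).map_isZero h)
    exact ⟨⟨fun _ _ _ => h1.eq_of_tgt _ _⟩, ⟨fun _ _ _ => h2.eq_of_tgt _ _⟩⟩
  biprodT := TT_biprod
  biprodF := FF_biprod
  hom M N hM hN f := by
    obtain ⟨h1, h2⟩ := hN
    have ho : f.app one = 0 := IsZero.eq_of_src hM _ _
    refine hom_ext' ?_ ho ?_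
    · rw [← cancel_mono (ml N), ← f.naturality, ho, comp_zero]
      exact zero_comp.symm
    · rw [← cancel_mono (mr N), ← f.naturality, ho, comp_zero]
      exact zero_comp.symm
  ses M := by
    obtain ⟨w, hw⟩ := ses_kernel_image (eta M)
    exact ⟨_, _, _, _, w, hw, TT_kernel M, FF_sub _ _ (image.ι (eta M)) inferInstance (FF_cst _)⟩

end Pool.Agent.V1166.Lax
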