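import Mathlib

/-!
# Slicings, lax stability conditions, composition series in a slice

Definitions for the problem on the Jordan–Hölder property of slices of lax stability
conditions.
-/

namespace Pool.Agent.V1166.Lax

open CategoryTheory Limits Pretriangulated TensorProduct

universe v u

section Slicing

variable {C : Type u} [Category.{v} C] [Preadditive C] [HasZeroObject C] [HasShift C ℤ]
  [∀ n : ℤ, (shiftFunctor C n).Additive] [Pretriangulated C]

/-- `HN P X L`: the object `X` has a Harder–Narasimhan filtration with respect to the family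
`P` of full subcategories. The list `L` is the list of phases of its factors, from the last
(smallest) one to the first (largest) one. The filtration is built one triangle at a time:
a zero object has the empty filtration, and if `X' ⟶ X ⟶ A ⟶ X'⟦1⟧` is a distinguished
triangle with `A` a nonzero object of `P φ`, and `X'` has a filtration all of whose phases
are `> φ`, then `X` has the filtration obtained by adding the last factor `A`. -/
inductive HN (P : ℝ → ObjectProperty C) : C → List ℝ → Prop
  | zero {X : C} (hX : IsZero X) : HN P X []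
  | step {X' X A : C} {φ : ℝ} {L : List ℝ} (f : X' ⟶ X) (g : X ⟶ A) (h : A ⟶ X'⟦(1 : ℤ)⟧)
      (hT : Triangle.mk f g h ∈ distTriang C) (hA : P φ A) (hA0 : ¬ IsZero A)
      (hφ : ∀ ψ ∈ L, φ < ψ) (hX' : HN P X' L) : HN P X (φ :: L)

variable (C)

/-- A slicing of a triangulated category, in Bridgeland's sense: (strictly) full additive
subcategories `P φ`, `φ : ℝ`, with `P φ [1] = P (φ + 1)`, no nonzero morphism from
`P φ₁` to `P φ₂` when `φ₁ > φ₂`, and Harder–Narasimhan filtrations of all objects. -/
structure Slicing where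
  /-- the full subcategory of semistable objects of phase `φ` (and zero objects) -/
  P : ℝ → ObjectProperty C
  isoClosed : ∀ (φ : ℝ) (X Y : C), (X ≅ Y) → P φ X → P φ Y
  zero : ∀ (φ : ℝ) (X : C), IsZero X → P φ X
  biprod : ∀ (φ : ℝ) (X Y : C), P φ X → P φ Y → P φ (X ⊞ Y)
  shift : ∀ (φ : ℝ) (X : C), P φ X ↔ P (φ + 1) (X⟦(1 : ℤ)⟧)
  homVanish : ∀ (φ₁ φ₂ : ℝ) (X Y : C), φ₂ < φ₁ → P φ₁ X → P φ₂ Y → ∀ f : X ⟶ Y, f = 0
  hn : ∀ X : C, ∃ L : List ℝ, HN P X L

end Slicing

section JordanHolder

variable {B : Type u} [Category.{v} B] [HasZeroMorphisms B]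

/-- `X' ⟶ X ⟶ X''` is a kernel–cokernel pair: `i` is a kernel of `p` and `p` is a
cokernel of `i`. Thus `i` exhibits `X'` as a strict subobject of `X` with quotient `X''`. -/
def KernelCokernelPair {X' X X'' : B} (i : X' ⟶ X) (p : X ⟶ X'') : Prop :=
  i ≫ p = 0 ∧
  (∀ (W : B) (f : W ⟶ X), f ≫ p = 0 → ∃! g : W ⟶ X', g ≫ i = f) ∧
  (∀ (W : B) (f : X ⟶ W), i ≫ f = 0 → ∃! g : X'' ⟶ W, p ≫ g = f)

/-- An object of (a quasi-abelian category) `B` is simple if it is nonzero and its only strict
subobjects are zero and the object itself. -/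
def StrictSimple (S : B) : Prop :=
  ¬ IsZero S ∧ ∀ (K Q : B) (i : K ⟶ S) (p : S ⟶ Q), KernelCokernelPair i p →
    IsZero K ∨ IsIso i

/-- `CompSeries X L`: the object `X` has a composition series (a finite chain
`0 = c₀ ⊂ c₁ ⊂ ⋯ ⊂ cₙ = X`, each `cᵢ₋₁ ⊂ cᵢ` a strict subobject with simple quotient), and
`L` is the list of its quotients `cₙ/cₙ₋₁, …, c₁/c₀`. -/
inductive CompSeries : B → List B → Prop
  | zero {X : B} (hX : IsZero X) : CompSeries X []
  | step {X' X S : B} {L : List B} (i : X' ⟶ X) (p : X ⟶ S) (h : KernelCokernelPair i p)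
      (hS : StrictSimple S) (hX' : CompSeries X' L) : CompSeries X (S :: L)

variable (B)

/-- The Jordan–Hölder property: any two composition series of the same object have the same
length and, after a permutation, pairwise isomorphic factors. -/
def JordanHolder : Prop :=
  ∀ (X : B) (L L' : List B), CompSeries X L → CompSeries X L' →
    ∃ e : Fin L.length ≃ Fin L'.length, ∀ i, Nonempty (L.get i ≅ L'.get (e i))

end JordanHolder

section Lax

variable (C : Type u) [Category.{v} C] [Preadditive C] [HasZeroObject C] [HasShift C ℤ]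
  [∀ n : ℤ, (shiftFunctor C n).Additive] [Pretriangulated C]

/-- A lax stability condition on `C`, with respect to a lattice `Λ`, a norm `N` on
`Λ ⊗ ℝ` and a map `v` from (the Grothendieck group of) `C` to `Λ`: a slicing `P` and a
homomorphism `Z : Λ → ℂ` such that every object `X` of `P φ` satisfies
`Z (v X) = m e^{iπφ}` with `m ≥ 0` (so that `m = ‖Z (v X)‖` is the mass of `X`), and such
that for some `K > 0` every massive stable object `S` has mass at least `‖v S‖ / K`. -/
structure LaxStabilityCondition (Λ : Type) [AddCommGroup Λ] (N : Seminorm ℝ (ℝ ⊗[ℤ] Λ))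
    (v : C → Λ) extends Slicing C where
  Z : Λ →+ ℂ
  phase : ∀ (φ : ℝ) (X : C), P φ X →
    ∃ m : ℝ, 0 ≤ m ∧ Z (v X) = m * Complex.exp (Complex.I * Real.pi * φ)
  support : ∃ K : ℝ, 0 < K ∧ ∀ (φ : ℝ) (S : (P φ).FullSubcategory), StrictSimple S →
    0 < ‖Z (v S.obj)‖ → N (1 ⊗ₜ v S.obj) / K ≤ ‖Z (v S.obj)‖

end Lax

end Pool.Agent.V1166.Lax
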