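import Pool.Agent.V1166.Lax.Bounded

/-!
# Euler characteristics on the bounded derived category
-/

namespace Pool.Agent.V1166.Lax

open CategoryTheory Limits Pretriangulated Triangulated DerivedCategory

universe w v u

variable {A : Type u} [Category.{v} A] [Abelian A]

variable (A) in
/-- A function on objects that is additive on short exact sequences. -/
structure AdditiveFun (Λ : Type) [AddCommGroup Λ] where
  r : A → Λ
  add : ∀ S : ShortComplex A, S.ShortExact → r S.X₂ = r S.X₁ + r S.X₃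

variable {Λ : Type} [AddCommGroup Λ] (ρ : AdditiveFun A Λ)

lemma ses_iso {X Y Z : A} (e : X ≅ Y) (hZ : IsZero Z) :
    (ShortComplex.mk e.hom (0 : Y ⟶ Z) comp_zero).ShortExact where
  exact := (ShortComplex.exact_iff_epi _ rfl).2 (by dsimp; infer_instance)
  mono_f := by dsimp; infer_instance
  epi_g := ⟨fun _ _ _ => hZ.eq_of_src _ _⟩

lemma r_zero {X : A} (hX : IsZero X) : ρ.r X = 0 := by
  have := ρ.add _ (ses_iso (Iso.refl X) hX)
  dsimp at this
  simpa using this

lemma r_iso {X Y : A} (e : X ≅ Y) : ρ.r X = ρ.r Y := by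
  have := ρ.add _ (ses_iso e (isZero_zero A))
  dsimp at this
  rw [r_zero ρ (isZero_zero A), add_zero] at this
  exact this.symm

lemma ses_image {X Y Z : A} (f : X ⟶ Y) (g : Y ⟶ Z) (w : f ≫ g = 0)
    (h : (ShortComplex.mk f g w).Exact) :
    ∃ w', (ShortComplex.mk (image.ι f) (factorThruImage g) w').ShortExact := by
  have w1 : f ≫ factorThruImage g = 0 := by
    rw [← cancel_mono (image.ι g), Category.assoc, image.fac, w, zero_comp]
  have w' : image.ι f ≫ factorThruImage g = 0 := by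
    rw [← cancel_epi (factorThruImage f), image.fac_assoc, w1, comp_zero]
  refine ⟨w', ?_⟩
  have h1 : (ShortComplex.mk f (factorThruImage g) w1).Exact := by
    let φ : ShortComplex.mk f (factorThruImage g) w1 ⟶ ShortComplex.mk f g w :=
      { τ₁ := 𝟙 _, τ₂ := 𝟙 _, τ₃ := image.ι g }
    have : Epi φ.τ₁ := by dsimp [φ]; infer_instance
    have : IsIso φ.τ₂ := by dsimp [φ]; infer_instance
    have : Mono φ.τ₃ := by dsimp [φ]; infer_instance
    exact (ShortComplex.exact_iff_of_epi_of_isIso_of_mono φ).2 h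
  have h2 : (ShortComplex.mk (image.ι f) (factorThruImage g) w').Exact := by
    let φ : ShortComplex.mk f (factorThruImage g) w1 ⟶
        ShortComplex.mk (image.ι f) (factorThruImage g) w' :=
      { τ₁ := factorThruImage f, τ₂ := 𝟙 _, τ₃ := 𝟙 _ }
    have : Epi φ.τ₁ := by dsimp [φ]; infer_instance
    have : IsIso φ.τ₂ := by dsimp [φ]; infer_instance
    have : Mono φ.τ₃ := by dsimp [φ]; infer_instance
    exact (ShortComplex.exact_iff_of_epi_of_isIso_of_mono φ).1 h1
  exact { exact := h2, mono_f := by dsimp; infer_instance, epi_g := by dsimp; infer_instance }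

/-- The rank of the image of a morphism. -/
noncomputable def rim {X Y : A} (f : X ⟶ Y) : Λ := ρ.r (image f)

lemma r_exact {X Y Z : A} (f : X ⟶ Y) (g : Y ⟶ Z) (w : f ≫ g = 0)
    (h : (ShortComplex.mk f g w).Exact) : ρ.r Y = rim ρ f + rim ρ g := by
  obtain ⟨w', h'⟩ := ses_image f g w h
  exact ρ.add _ h'

lemma rim_zero {X Y : A} (f : X ⟶ Y) (hX : IsZero X) : rim ρ f = 0 :=
  r_zero ρ ((IsZero.of_epi (factorThruImage f) hX))

variable [HasDerivedCategory.{w} A]

/-- The Euler characteristic. -/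
noncomputable def chi (X : DerivedCategory A) : Λ :=
  ∑ᶠ n : ℤ, ((Int.negOnePow n : ℤˣ) : ℤ) • ρ.r ((homologyFunctor A n).obj X)

lemma finite_homology {X : DerivedCategory A} (h : (TStructure.t).bounded X) :
    {n : ℤ | ¬ IsZero ((homologyFunctor A n).obj X)}.Finite := by
  obtain ⟨⟨a, ha⟩, ⟨b, hb⟩⟩ := h
  refine (Set.finite_Icc a b).subset (fun n hn => ?_)
  by_contra hh
  simp only [Set.mem_Icc, not_and_or, not_le] at hh
  rcases hh with hh | hh
  · exact hn (isZero_of_isGE X a n hh)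
  · exact hn (isZero_of_isLE X b n hh)

lemma finite_support_rim {X : DerivedCategory A} (h : (TStructure.t).bounded X)
    (Y : ℤ → A) (f : ∀ n, (homologyFunctor A n).obj X ⟶ Y n) :
    (Function.support (fun n : ℤ => ((Int.negOnePow n : ℤˣ) : ℤ) • rim ρ (f n))).Finite := by
  refine (finite_homology h).subset (fun n hn => ?_)
  intro h0
  apply hn
  dsimp
  rw [rim_zero ρ (f n) h0, smul_zero]

lemma chi_add {X Y Z : DerivedCategory A} (f : X ⟶ Y) (g : Y ⟶ Z) (h : Z ⟶ X⟦(1 : ℤ)⟧)
    (hT : Triangle.mk f g h ∈ distTriang (DerivedCategory A))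
    (hX : (TStructure.t).bounded X) (hY : (TStructure.t).bounded Y)
    (hZ : (TStructure.t).bounded Z) : chi ρ Y = chi ρ X + chi ρ Z := by
  let p : ℤ → Λ := fun n => rim ρ ((homologyFunctor A n).map f)
  let q : ℤ → Λ := fun n => rim ρ ((homologyFunctor A n).map g)
  let d : ℤ → Λ := fun n => rim ρ (HomologySequence.δ (Triangle.mk f g h) n (n + 1) rfl)
  have hy : ∀ n, ρ.r ((homologyFunctor A n).obj Y) = p n + q n := fun n =>
    r_exact ρ _ _ _ (HomologySequence.exact₂ _ hT n)
  have hz : ∀ n, ρ.r ((homologyFunctor A n).obj Z) = q n + d n := fun n =>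
    r_exact ρ _ _ _ (HomologySequence.exact₃ _ hT n (n + 1) rfl)
  have hx : ∀ n, ρ.r ((homologyFunctor A (n + 1)).obj X) = d n + p (n + 1) := fun n =>
    r_exact ρ _ _ _ (HomologySequence.exact₁ _ hT n (n + 1) rfl)
  have fp : (Function.support (fun n : ℤ => ((Int.negOnePow n : ℤˣ) : ℤ) • p n)).Finite :=
    finite_support_rim ρ hX _ _
  have fq : (Function.support (fun n : ℤ => ((Int.negOnePow n : ℤˣ) : ℤ) • q n)).Finite :=
    finite_support_rim ρ hY _ _
  have fd : (Function.support (fun n : ℤ => ((Int.negOnePow n : ℤˣ) : ℤ) • d n)).Finite :=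
    finite_support_rim ρ hZ _ _
  have fp' : (Function.support
      (fun n : ℤ => ((Int.negOnePow (n + 1) : ℤˣ) : ℤ) • p (n + 1))).Finite := by
    have := fp.preimage (f := fun n : ℤ => n + 1) (fun a _ b _ hab => by simpa using hab)
    exact this
  have e1 : chi ρ Y = ∑ᶠ n : ℤ, ((Int.negOnePow n : ℤˣ) : ℤ) • p n +
      ∑ᶠ n : ℤ, ((Int.negOnePow n : ℤˣ) : ℤ) • q n := by
    rw [← finsum_add_distrib fp fq]
    unfold chi
    congr 1
    ext n
    rw [hy n, smul_add]
  have e2 : chi ρ Z = ∑ᶠ n : ℤ, ((Int.negOnePow n : ℤˣ) : ℤ) • q n +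
      ∑ᶠ n : ℤ, ((Int.negOnePow n : ℤˣ) : ℤ) • d n := by
    rw [← finsum_add_distrib fq fd]
    unfold chi
    congr 1
    ext n
    rw [hz n, smul_add]
  have e3 : chi ρ X = ∑ᶠ n : ℤ, ((Int.negOnePow n : ℤˣ) : ℤ) • p n -
      ∑ᶠ n : ℤ, ((Int.negOnePow n : ℤˣ) : ℤ) • d n := by
    have s1 : chi ρ X = ∑ᶠ n : ℤ, ((Int.negOnePow (n + 1) : ℤˣ) : ℤ) •
        ρ.r ((homologyFunctor A (n + 1)).obj X) := by
      unfold chi
      exact (finsum_comp_equiv (Equiv.addRight (1 : ℤ))
        (f := fun n : ℤ => ((Int.negOnePow n : ℤˣ) : ℤ) •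
          ρ.r ((homologyFunctor A n).obj X))).symm
    have s2 : ∑ᶠ n : ℤ, ((Int.negOnePow n : ℤˣ) : ℤ) • p n =
        ∑ᶠ n : ℤ, ((Int.negOnePow (n + 1) : ℤˣ) : ℤ) • p (n + 1) :=
      (finsum_comp_equiv (Equiv.addRight (1 : ℤ))
        (f := fun n : ℤ => ((Int.negOnePow n : ℤˣ) : ℤ) • p n)).symm
    rw [s1, s2, ← finsum_sub_distrib fp' fd]
    congr 1
    ext n
    rw [hx n, smul_add, Int.negOnePow_succ]
    simp only [Units.val_neg, neg_smul]
    abel
  rw [e1, e2, e3]
  abel

/-- The Euler characteristic of `M[n]`. -/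
lemma chi_sh (M : A) (n : ℤ) : chi ρ (sh M n) = ((Int.negOnePow n : ℤˣ) : ℤ) • ρ.r M := by
  unfold chi
  rw [finsum_eq_single _ (-n)]
  · rw [Int.negOnePow_neg]
    congr 1
    apply r_iso
    exact ((homologyFunctor A 0).shiftIso n (-n) 0 (by lia)).app ((singleFunctor A 0).obj M) ≪≫
      (singleFunctorCompHomologyFunctorIso A 0).app M
  · intro k hk
    have : IsZero ((homologyFunctor A k).obj (sh M n)) := by
      rcases lt_or_gt_of_ne hk with h | h
      · exact isZero_of_isGE _ (-n) k h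
      · exact isZero_of_isLE _ (-n) k h
    rw [r_zero ρ this, smul_zero]

lemma chi_iso {X Y : DerivedCategory A} (e : X ≅ Y) : chi ρ X = chi ρ Y := by
  unfold chi
  congr 1
  ext n
  rw [r_iso ρ ((homologyFunctor A n).mapIso e)]

lemma chi_zero {X : DerivedCategory A} (hX : IsZero X) : chi ρ X = 0 := by
  unfold chi
  rw [← finsum_zero (α := ℤ)]
  congr 1
  ext n
  rw [r_zero ρ ((homologyFunctor A n).map_isZero hX), smul_zero]

end Pool.Agent.V1166.Lax
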