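import Pool.Agent.V1166.Lax.Cospan

/-!
# The lax stability condition on the bounded derived category of `Rep B`
-/

namespace Pool.Agent.V1166.Lax

open CategoryTheory Limits Pretriangulated Triangulated DerivedCategory ZeroObject TensorProduct

open CategoryTheory.Limits.WalkingCospan (left right one)

universe w v u

/-- The lattice. -/
abbrev Lat : Type := WalkingCospan → ℤ

instance : DecidableEq WalkingCospan := inferInstanceAs (DecidableEq (Option WalkingPair))

/-- The sup norm on `Λ ⊗ ℝ`. -/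
noncomputable def supNorm : Seminorm ℝ (ℝ ⊗[ℤ] Lat) :=
  (normSeminorm ℝ (WalkingCospan → ℝ)).comp
    (TensorProduct.piScalarRight ℤ ℝ ℝ WalkingCospan).toLinearMap

lemma supNorm_def (x : ℝ ⊗[ℤ] Lat) :
    supNorm x = ‖TensorProduct.piScalarRight ℤ ℝ ℝ WalkingCospan x‖ := rfl

lemma supNorm_eq_zero (x : ℝ ⊗[ℤ] Lat) (h : supNorm x = 0) : x = 0 := by
  rw [supNorm_def, norm_eq_zero] at h
  exact (TensorProduct.piScalarRight ℤ ℝ ℝ WalkingCospan).map_eq_zero_iff.1 h

lemma supNorm_tmul_le (f : Lat) (c : ℝ) (hc : 0 ≤ c) (h : ∀ j, |(f j : ℝ)| ≤ c) :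
    supNorm (1 ⊗ₜ f) ≤ c := by
  rw [supNorm_def, pi_norm_le_iff_of_nonneg hc]
  intro j
  simpa [TensorProduct.piScalarRight_apply, TensorProduct.piScalarRightHom_tmul] using h j

/-- The central charge. -/
noncomputable def ZZ : Lat →+ ℂ where
  toFun f := (f one : ℂ) * Complex.I
  map_zero' := by simp
  map_add' f g := by
    simp only [Pi.add_apply, Int.cast_add]
    ring

lemma norm_ZZ (f : Lat) : ‖ZZ f‖ = |(f one : ℝ)| := by
  change ‖(f one : ℂ) * Complex.I‖ = _
  simp

variable {B : Type u} [Category.{v} B] [Abelian B] (dim : AdditiveFun B ℤ)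

/-- The dimension vector. -/
noncomputable def dimv : AdditiveFun (Rep B) Lat where
  r M j := dim.r (M.obj j)
  add S hS := by
    ext j
    exact dim.add _ (hS.map_of_exact ((evaluation WalkingCospan B).obj j))

/-- The dimension at `one`. -/
noncomputable def dim1 : AdditiveFun (Rep B) ℤ where
  r M := dim.r (M.obj one)
  add S hS := dim.add _ (hS.map_of_exact ((evaluation WalkingCospan B).obj one))

lemma dim_mono (hdim : ∀ X, 0 ≤ dim.r X) {X Y : B} (f : X ⟶ Y) (hf : Mono f) :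
    dim.r X ≤ dim.r Y := by
  have h : (ShortComplex.mk f (cokernel.π f) (cokernel.condition f)).ShortExact :=
    { exact := ShortComplex.exact_of_g_is_cokernel _ (cokernelIsCokernel f)
      mono_f := hf
      epi_g := by dsimp; infer_instance }
  have h1 := dim.add _ h
  dsimp at h1
  have h2 := hdim (cokernel f)
  lia

lemma dim1_zero (hdim0 : ∀ X, dim.r X = 0 → IsZero X) (M : Rep B) (hM : FF M)
    (h : (dim1 dim).r M = 0) : IsZero M := by
  have ho : IsZero (M.obj one) := hdim0 _ h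
  have := hM.1
  have := hM.2
  exact isZero_rep (IsZero.of_mono (ml M) ho) ho (IsZero.of_mono (mr M) ho)

variable [HasDerivedCategory.{w} (Rep B)]

/-- The class map. -/
noncomputable def cl (X : DerivedCategory.Bounded (Rep B)) : Lat := chi (dimv dim) X.obj

lemma cl_add (T : Triangle (DerivedCategory.Bounded (Rep B))) (hT : T ∈ distTriang _) :
    cl dim T.obj₂ = cl dim T.obj₁ + cl dim T.obj₃ :=
  chi_add (dimv dim) _ _ _ ((Bounded.ι (C := Rep B)).map_distinguished T hT)
    T.obj₁.property T.obj₂.property T.obj₃.property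

lemma exp_half (n : ℤ) : Complex.exp (Complex.I * Real.pi * ((n : ℝ) + 1 / 2 : ℝ)) =
    (((Int.negOnePow n : ℤˣ) : ℤ) : ℂ) * Complex.I := by
  have h1 : Complex.I * Real.pi * ((n : ℝ) + 1 / 2 : ℝ) =
      n * (Real.pi * Complex.I) + Real.pi / 2 * Complex.I := by
    push_cast
    ring
  rw [h1, Complex.exp_add, Complex.exp_int_mul, Complex.exp_pi_mul_I, Complex.exp_pi_div_two_mul_I,
    Int.cast_negOnePow]

lemma cl_F {X : DerivedCategory.Bounded (Rep B)} {n : ℤ} {M : Rep B} (e : X.obj ≅ sh M n) (j) :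
    cl dim X j = ((Int.negOnePow n : ℤˣ) : ℤ) * dim.r (M.obj j) := by
  unfold cl
  rw [chi_iso _ e, chi_sh, Pi.smul_apply, smul_eq_mul]
  rfl

lemma cl_zero {X : DerivedCategory.Bounded (Rep B)} (h : IsZero X.obj) : cl dim X = 0 :=
  chi_zero _ h

/-- The lax stability condition. -/
noncomputable def laxStab (hdim : ∀ X, 0 ≤ dim.r X) :
    LaxStabilityCondition (DerivedCategory.Bounded (Rep B)) Lat supNorm (cl dim) where
  toSlicing := slicing repTorsion
  Z := ZZ
  phase φ X hX := by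
    rcases hX with h | ⟨n, M, hM, hn, ⟨e⟩⟩ | ⟨n, M, hM, hn, ⟨e⟩⟩
    · exact ⟨0, le_refl _, by rw [cl_zero dim h]; simp⟩
    · refine ⟨dim.r (M.obj one), by exact_mod_cast hdim _, ?_⟩
      rw [hn, exp_half]
      change ((cl dim X one : ℤ) : ℂ) * Complex.I = _
      rw [cl_F dim e]
      push_cast
      ring
    · refine ⟨0, le_refl _, ?_⟩
      change ((cl dim X one : ℤ) : ℂ) * Complex.I = _
      rw [cl_F dim e, r_zero dim hM]
      simp
  support := by
    refine ⟨1, one_pos, ?_⟩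
    rintro φ ⟨X, hX⟩ - hpos
    rw [div_one]
    change supNorm (1 ⊗ₜ cl dim X) ≤ ‖ZZ (cl dim X)‖
    rcases hX with h | ⟨n, M, hM, hn, ⟨e⟩⟩ | ⟨n, M, hM, hn, ⟨e⟩⟩
    · rw [cl_zero dim h]
      simp
    · rw [norm_ZZ]
      refine supNorm_tmul_le _ _ (abs_nonneg _) (fun j => ?_)
      rw [cl_F dim e, cl_F dim e]
      push_cast
      rw [abs_mul, abs_mul]
      refine mul_le_mul_of_nonneg_left ?_ (abs_nonneg _)
      rw [abs_of_nonneg (by exact_mod_cast hdim _), abs_of_nonneg (by exact_mod_cast hdim _)]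
      norm_cast
      have h1 := hM.1
      have h2 := hM.2
      match j with
      | none => exact le_refl _
      | some WalkingPair.left => exact dim_mono dim hdim (ml M) h1
      | some WalkingPair.right => exact dim_mono dim hdim (mr M) h2
    · exfalso
      change 0 < ‖ZZ (cl dim X)‖ at hpos
      rw [norm_ZZ, cl_F dim e, r_zero dim hM] at hpos
      simp at hpos

lemma massive (hdim : ∀ X, 0 ≤ dim.r X) (hdim0 : ∀ X, dim.r X = 0 → IsZero X)
    (X : DerivedCategory.Bounded (Rep B)) (hX : (laxStab dim hdim).P (1 / 2) X) (h0 : ¬ IsZero X) :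
    0 < ‖(laxStab dim hdim).Z (cl dim X)‖ := by
  change 0 < ‖ZZ (cl dim X)‖
  obtain ⟨M, hM, ⟨e⟩⟩ := exists_G repTorsion ⟨X, hX⟩
  have e' : X.obj ≅ sh M 0 := (inc repTorsion).mapIso e
  rw [norm_ZZ, cl_F dim e', Int.negOnePow_zero]
  simp only [Units.val_one, one_mul]
  rw [abs_pos]
  intro h
  apply h0
  apply isZero_of_obj
  refine IsZero.of_iso ?_ e'
  refine (shiftFunctor _ (0 : ℤ)).map_isZero ((singleFunctor (Rep B) 0).map_isZero ?_)
  exact dim1_zero dim hdim0 M hM (by exact_mod_cast h)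

/-- Failure of the Jordan–Hölder property. -/
theorem not_JH (hdim : ∀ X, 0 ≤ dim.r X) (hdim0 : ∀ X, dim.r X = 0 → IsZero X) (k : B)
    (hk : dim.r k = 1) : ¬ JordanHolder ((laxStab dim hdim).P (1 / 2)).FullSubcategory := by
  have hkz : ¬ IsZero k := fun h => by
    rw [r_zero dim h] at hk
    exact zero_ne_one hk
  let P : Rep B := cospan (𝟙 k) (0 : (0 : B) ⟶ k)
  let Q : Rep B := cospan (0 : (0 : B) ⟶ k) (𝟙 k)
  let I : Rep B := cospan (𝟙 k) (𝟙 k)
  have hP : FF P := ⟨(inferInstance : Mono (𝟙 k)), ⟨fun _ _ _ => (isZero_zero B).eq_of_tgt _ _⟩⟩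
  have hQ : FF Q := ⟨⟨fun _ _ _ => (isZero_zero B).eq_of_tgt _ _⟩, (inferInstance : Mono (𝟙 k))⟩
  have hI : FF I := ⟨(inferInstance : Mono (𝟙 k)), (inferInstance : Mono (𝟙 k))⟩
  let α : P ⟶ I := rhom (𝟙 k) (𝟙 k) (0 : (0 : B) ⟶ k) rfl
    ((isZero_zero B).eq_of_src _ _)
  let β : Q ⟶ I := rhom (0 : (0 : B) ⟶ k) (𝟙 k) (𝟙 k) ((isZero_zero B).eq_of_src _ _) rfl
  let π : P ⊞ Q ⟶ I := biprod.desc α β
  have h1 : (biprod.inl : P ⟶ P ⊞ Q) ≫ π = α := biprod.inl_desc _ _
  have h2 : (biprod.inr : Q ⟶ P ⊞ Q) ≫ π = β := biprod.inr_desc _ _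
  have hl : (biprod.inl : P ⟶ P ⊞ Q).app left ≫ π.app left = 𝟙 k :=
    congrArg (fun t => NatTrans.app t left) h1
  have ho : (biprod.inl : P ⟶ P ⊞ Q).app one ≫ π.app one = 𝟙 k :=
    congrArg (fun t => NatTrans.app t one) h1
  have hr : (biprod.inr : Q ⟶ P ⊞ Q).app right ≫ π.app right = 𝟙 k :=
    congrArg (fun t => NatTrans.app t right) h2
  have hπ : Epi π := by
    rw [NatTrans.epi_iff_epi_app]
    rintro (_ | _ | _)
    · have : IsSplitEpi (π.app one) := ⟨⟨_, ho⟩⟩
      exact (inferInstance : Epi (π.app one))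
    · have : IsSplitEpi (π.app left) := ⟨⟨_, hl⟩⟩
      exact (inferInstance : Epi (π.app left))
    · have : IsSplitEpi (π.app right) := ⟨⟨_, hr⟩⟩
      exact (inferInstance : Epi (π.app right))
  refine not_jordanHolder repTorsion (fun X Y i hi hY => FF_sub X Y i hi hY) (dim1 dim)
    (fun X => hdim _) (fun X hX h => dim1_zero dim hdim0 X hX h) P Q I hP hQ hI hk hk hk π hπ
    ⟨fun e => ?_⟩ ⟨fun e => ?_⟩
  · exact hkz ((isZero_zero B).of_iso (((evaluation WalkingCospan B).obj right).mapIso e).symm)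
  · exact hkz ((isZero_zero B).of_iso (((evaluation WalkingCospan B).obj left).mapIso e).symm)

end Pool.Agent.V1166.Lax
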