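import Pool.Agent.V1166.Lax.Euler

/-!
# Failure of the Jordan–Hölder property
-/

namespace Pool.Agent.V1166.Lax

open CategoryTheory Limits Pretriangulated Triangulated DerivedCategory ZeroObject

universe w v u

variable {A : Type u} [Category.{v} A] [Abelian A] [HasDerivedCategory.{w} A]
  (τ : TorsionPair A)

/-- The slice of phase `1/2`. -/
abbrev Slice := (PB τ (1 / 2)).FullSubcategory

lemma G_mem {M : A} (hM : τ.F M) : PB τ (1 / 2) (mkB (sh M 0) (sh_bounded M 0)) :=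
  Or.inr (Or.inl ⟨0, M, hM, by simp, ⟨Iso.refl _⟩⟩)

/-- The object of the slice given by a torsion-free object. -/
noncomputable abbrev G (M : A) (hM : τ.F M) : Slice τ :=
  ⟨mkB (sh M 0) (sh_bounded M 0), G_mem τ hM⟩

/-- The morphism of the slice given by a morphism of torsion-free objects. -/
noncomputable def Gm {M N : A} (hM : τ.F M) (hN : τ.F N) (f : M ⟶ N) : G τ M hM ⟶ G τ N hN :=
  ObjectProperty.homMk (ObjectProperty.homMk (((singleFunctor A 0).map f)⟦(0 : ℤ)⟧'))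

/-- The inclusion of the slice in the derived category. -/
noncomputable abbrev inc : Slice τ ⥤ DerivedCategory A :=
  (PB τ (1 / 2)).ι ⋙ Bounded.ι (C := A)

lemma inc_Gm {M N : A} (hM : τ.F M) (hN : τ.F N) (f : M ⟶ N) :
    (inc τ).map (Gm τ hM hN f) = ((singleFunctor A 0).map f)⟦(0 : ℤ)⟧' := rfl

lemma Gm_surj {M N : A} (hM : τ.F M) (hN : τ.F N) (g : G τ M hM ⟶ G τ N hN) :
    ∃ f : M ⟶ N, g = Gm τ hM hN f := by
  obtain ⟨g', hg'⟩ := (shiftFunctor (DerivedCategory A) (0 : ℤ)).map_surjective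
    ((inc τ).map g : sh M 0 ⟶ sh N 0)
  obtain ⟨f, rfl⟩ := (singleFunctor A 0).map_surjective g'
  refine ⟨f, (inc τ).map_injective ?_⟩
  rw [inc_Gm]
  exact hg'.symm

lemma Gm_inj {M N : A} (hM : τ.F M) (hN : τ.F N) {f g : M ⟶ N}
    (h : Gm τ hM hN f = Gm τ hM hN g) : f = g := by
  have h1 := congrArg (fun k => (inc τ).map k) h
  rw [inc_Gm, inc_Gm] at h1
  exact (singleFunctor A 0).map_injective
    ((shiftFunctor (DerivedCategory A) (0 : ℤ)).map_injective h1)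

lemma Gm_comp {M N K : A} (hM : τ.F M) (hN : τ.F N) (hK : τ.F K) (f : M ⟶ N) (g : N ⟶ K) :
    Gm τ hM hK (f ≫ g) = Gm τ hM hN f ≫ Gm τ hN hK g := by
  apply (inc τ).map_injective
  rw [CategoryTheory.Functor.map_comp, inc_Gm, inc_Gm, inc_Gm,
    CategoryTheory.Functor.map_comp, CategoryTheory.Functor.map_comp]

lemma Gm_id {M : A} (hM : τ.F M) : Gm τ hM hM (𝟙 M) = 𝟙 _ := by
  apply (inc τ).map_injective
  rw [inc_Gm, CategoryTheory.Functor.map_id, CategoryTheory.Functor.map_id,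
    CategoryTheory.Functor.map_id]
  rfl

lemma Gm_zero {M N : A} (hM : τ.F M) (hN : τ.F N) : Gm τ hM hN (0 : M ⟶ N) = 0 := by
  apply (inc τ).map_injective
  rw [inc_Gm, CategoryTheory.Functor.map_zero, CategoryTheory.Functor.map_zero,
    CategoryTheory.Functor.map_zero]

lemma Gm_eq_zero {M N : A} (hM : τ.F M) (hN : τ.F N) {f : M ⟶ N}
    (h : Gm τ hM hN f = 0) : f = 0 :=
  Gm_inj τ hM hN (h.trans (Gm_zero τ hM hN).symm)

lemma exists_G (X : Slice τ) : ∃ (M : A) (hM : τ.F M), Nonempty (X ≅ G τ M hM) := by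
  obtain ⟨X, hX⟩ := X
  rcases hX with h | ⟨n, M, hM, hn, ⟨e⟩⟩ | ⟨n, M, hM, hn, ⟨e⟩⟩
  · refine ⟨0, τ.zeroF _ (isZero_zero A), ⟨(inc τ).preimageIso ?_⟩⟩
    refine IsZero.iso h ?_
    exact (shiftFunctor (DerivedCategory A) (0 : ℤ)).map_isZero
      ((singleFunctor A 0).map_isZero (isZero_zero A))
  · have : n = 0 := by
      have : (n : ℝ) = (0 : ℤ) := by push_cast; linarith
      exact_mod_cast this
    subst this
    exact ⟨M, hM, ⟨(inc τ).preimageIso e⟩⟩
  · exfalso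
    have : ((2 * n + 1 : ℤ) : ℝ) = (0 : ℤ) := by push_cast; linarith
    have h2 : 2 * n + 1 = 0 := by exact_mod_cast this
    lia

lemma iso_of_G {M N : A} {hM : τ.F M} {hN : τ.F N} (e : G τ M hM ≅ G τ N hN) :
    Nonempty (M ≅ N) := by
  obtain ⟨f, hf⟩ := Gm_surj τ hM hN e.hom
  obtain ⟨g, hg⟩ := Gm_surj τ hN hM e.inv
  refine ⟨⟨f, g, Gm_inj τ hM hM ?_, Gm_inj τ hN hN ?_⟩⟩
  · rw [Gm_comp τ hM hN hM, ← hf, ← hg, e.hom_inv_id, Gm_id]
  · rw [Gm_comp τ hN hM hN, ← hf, ← hg, e.inv_hom_id, Gm_id]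

lemma G_isZero {M : A} {hM : τ.F M} (h : IsZero (G τ M hM)) : IsZero M := by
  rw [IsZero.iff_id_eq_zero]
  apply Gm_inj τ hM hM
  rw [Gm_zero]
  exact h.eq_of_src _ _

/-- Short exact sequences of torsion-free objects give kernel–cokernel pairs in the slice. -/
lemma pair_of_ses {M N K : A} (hM : τ.F M) (hN : τ.F N) (hK : τ.F K) (f : M ⟶ N) (g : N ⟶ K)
    (w : f ≫ g = 0) (h : (ShortComplex.mk f g w).ShortExact) :
    KernelCokernelPair (Gm τ hM hN f) (Gm τ hN hK g) := by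
  have hf : Mono f := h.mono_f
  have hg : Epi g := h.epi_g
  refine ⟨by rw [← Gm_comp, w, Gm_zero], ?_, ?_⟩
  · intro W k hk
    obtain ⟨N', hN', ⟨e⟩⟩ := exists_G τ W
    obtain ⟨k', hk'⟩ := Gm_surj τ hN' hN (e.inv ≫ k)
    have h1 : k' ≫ g = 0 := by
      apply Gm_eq_zero τ hN' hK
      rw [Gm_comp τ hN' hN hK, ← hk', Category.assoc, hk, comp_zero]
    have h2 : h.exact.lift k' h1 ≫ f = k' := h.exact.lift_f k' h1
    refine ⟨e.hom ≫ Gm τ hN' hM (h.exact.lift k' h1), ?_, ?_⟩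
    · dsimp only
      rw [Category.assoc, ← Gm_comp, h2, ← hk', Iso.hom_inv_id_assoc]
    · intro y hy
      obtain ⟨y', hy'⟩ := Gm_surj τ hN' hM (e.inv ≫ y)
      have h3 : y' = h.exact.lift k' h1 := by
        rw [← cancel_mono f, h2]
        apply Gm_inj τ hN' hN
        rw [Gm_comp τ hN' hM hN, ← hy', ← hk', Category.assoc, hy]
      rw [← h3, ← hy', Iso.hom_inv_id_assoc]
  · intro W k hk
    obtain ⟨N', hN', ⟨e⟩⟩ := exists_G τ W
    obtain ⟨k', hk'⟩ := Gm_surj τ hN hN' (k ≫ e.hom)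
    have h1 : f ≫ k' = 0 := by
      apply Gm_eq_zero τ hM hN'
      rw [Gm_comp τ hM hN hN', ← hk', ← Category.assoc, hk, zero_comp]
    have h2 : g ≫ h.exact.desc k' h1 = k' := h.exact.g_desc k' h1
    refine ⟨Gm τ hK hN' (h.exact.desc k' h1) ≫ e.inv, ?_, ?_⟩
    · dsimp only
      rw [← Category.assoc, ← Gm_comp, h2, ← hk', Category.assoc, Iso.hom_inv_id,
        Category.comp_id]
    · intro y hy
      obtain ⟨y', hy'⟩ := Gm_surj τ hK hN' (y ≫ e.hom)
      have h3 : y' = h.exact.desc k' h1 := by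
        rw [← cancel_epi g, h2]
        apply Gm_inj τ hN hN'
        rw [Gm_comp τ hN hK hN', ← hy', ← hk', ← Category.assoc, hy]
      rw [← h3, ← hy', Category.assoc, Iso.hom_inv_id, Category.comp_id]

omit [HasDerivedCategory.{w} A] in
lemma ses_kernel_image {X Y : A} (f : X ⟶ Y) :
    ∃ w, (ShortComplex.mk (kernel.ι f) (factorThruImage f) w).ShortExact := by
  have w : kernel.ι f ≫ factorThruImage f = 0 := by
    rw [← cancel_mono (image.ι f), Category.assoc, image.fac, kernel.condition, zero_comp]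
  refine ⟨w, ?_⟩
  have h1 : (ShortComplex.mk (kernel.ι f) f (kernel.condition f)).Exact :=
    ShortComplex.exact_of_f_is_kernel _ (kernelIsKernel f)
  have h2 : (ShortComplex.mk (kernel.ι f) (factorThruImage f) w).Exact := by
    let φ : ShortComplex.mk (kernel.ι f) (factorThruImage f) w ⟶
        ShortComplex.mk (kernel.ι f) f (kernel.condition f) :=
      { τ₁ := 𝟙 _, τ₂ := 𝟙 _, τ₃ := image.ι f }
    have : Epi φ.τ₁ := by dsimp [φ]; infer_instance
    have : IsIso φ.τ₂ := by dsimp [φ]; infer_instance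
    have : Mono φ.τ₃ := by dsimp [φ]; infer_instance
    exact (ShortComplex.exact_iff_of_epi_of_isIso_of_mono φ).2 h1
  exact { exact := h2, mono_f := by dsimp; infer_instance, epi_g := by dsimp; infer_instance }

/-- Torsion-free objects of rank one are simple in the slice. -/
lemma simple_of_rank_one (hsub : ∀ (X Y : A) (i : X ⟶ Y), Mono i → τ.F Y → τ.F X)
    (δ : AdditiveFun A ℤ) (hδ : ∀ X, 0 ≤ δ.r X) (hδ0 : ∀ X, τ.F X → δ.r X = 0 → IsZero X)
    (M : A) (hM : τ.F M) (h1 : δ.r M = 1) : StrictSimple (G τ M hM) := by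
  refine ⟨fun h => ?_, ?_⟩
  · rw [r_zero δ (G_isZero τ h)] at h1
    exact zero_ne_one h1
  · intro K Q i p hip
    obtain ⟨hw, hker, -⟩ := hip
    obtain ⟨Q₀, hQ₀, ⟨eQ⟩⟩ := exists_G τ Q
    obtain ⟨K₀, hK₀, ⟨eK⟩⟩ := exists_G τ K
    obtain ⟨p₀, hp₀⟩ := Gm_surj τ hM hQ₀ (p ≫ eQ.hom)
    obtain ⟨i₀, hi₀⟩ := Gm_surj τ hK₀ hM (eK.inv ≫ i)
    obtain ⟨w, hses⟩ := ses_kernel_image p₀
    have hadd := δ.add _ hses
    dsimp at hadd
    have hi : ∀ (W : Slice τ) (a b : W ⟶ K), a ≫ i = b ≫ i → a = b := by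
      intro W a b hab
      exact (hker W (a ≫ i) (by rw [Category.assoc, hw, comp_zero])).unique rfl hab.symm
    have hk0 := hδ (kernel p₀)
    have him0 := hδ (image p₀)
    by_cases hc : δ.r (image p₀) = 0
    · right
      have hz := hδ0 _ (hsub _ _ (image.ι p₀) inferInstance hQ₀) hc
      have hp0 : p₀ = 0 := by
        rw [← image.fac p₀, hz.eq_of_src (image.ι p₀) 0, comp_zero]
      have hp : p = 0 := by
        rw [← cancel_mono eQ.hom, hp₀, hp0, Gm_zero, zero_comp]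
      obtain ⟨g, hg, -⟩ := hker _ (𝟙 _) (by rw [hp, comp_zero])
      exact ⟨g, hi _ _ _ (by rw [Category.assoc, hg, Category.comp_id, Category.id_comp]), hg⟩
    · left
      have hkz : δ.r (kernel p₀) = 0 := by lia
      have hz := hδ0 _ (hsub _ _ (kernel.ι p₀) inferInstance hM) hkz
      have hmono : Mono p₀ := Preadditive.mono_of_kernel_zero (hz.eq_of_src _ _)
      have hi0 : i₀ = 0 := by
        rw [← cancel_mono p₀, zero_comp]
        apply Gm_eq_zero τ hK₀ hQ₀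
        rw [Gm_comp τ hK₀ hM hQ₀, ← hi₀, ← hp₀, Category.assoc, ← Category.assoc i, hw,
          zero_comp, comp_zero]
      have hiz : i = 0 := by
        rw [← cancel_epi eK.inv, hi₀, hi0, Gm_zero, comp_zero]
      rw [IsZero.iff_id_eq_zero]
      exact hi _ _ _ (by rw [hiz, comp_zero, comp_zero])

/-- The criterion for the failure of the Jordan–Hölder property. -/
theorem not_jordanHolder (hsub : ∀ (X Y : A) (i : X ⟶ Y), Mono i → τ.F Y → τ.F X)
    (δ : AdditiveFun A ℤ) (hδ : ∀ X, 0 ≤ δ.r X) (hδ0 : ∀ X, τ.F X → δ.r X = 0 → IsZero X)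
    (P Q I : A) (hP : τ.F P) (hQ : τ.F Q) (hI : τ.F I) (rP : δ.r P = 1) (rQ : δ.r Q = 1)
    (rI : δ.r I = 1) (π : P ⊞ Q ⟶ I) (hπ : Epi π) (hPI : IsEmpty (P ≅ I))
    (hQI : IsEmpty (Q ≅ I)) : ¬ JordanHolder (Slice τ) := by
  intro hJH
  have hPQ : τ.F (P ⊞ Q) := τ.biprodF _ _ hP hQ
  have ses1 : (ShortComplex.mk (biprod.inl : P ⟶ P ⊞ Q) (biprod.snd : P ⊞ Q ⟶ Q)
      biprod.inl_snd).ShortExact :=
    (ShortComplex.Splitting.ofHasBinaryBiproduct P Q).shortExact
  have ses2 : (ShortComplex.mk (kernel.ι π) π (kernel.condition π)).ShortExact :=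
    { exact := ShortComplex.exact_of_f_is_kernel _ (kernelIsKernel π)
      mono_f := by dsimp; infer_instance
      epi_g := by dsimp; infer_instance }
  have hK : τ.F (kernel π) := hsub _ _ (kernel.ι π) inferInstance hPQ
  have a1 := δ.add _ ses1
  have a2 := δ.add _ ses2
  dsimp at a1 a2
  have rK : δ.r (kernel π) = 1 := by lia
  have simple := simple_of_rank_one τ hsub δ hδ hδ0
  have hzero : τ.F (0 : A) := τ.zeroF _ (isZero_zero A)
  have one : ∀ (M : A) (hM : τ.F M), δ.r M = 1 → CompSeries (G τ M hM) [G τ M hM] := by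
    intro M hM hr
    have s0 : (ShortComplex.mk (0 : (0 : A) ⟶ M) (𝟙 M) zero_comp).ShortExact :=
      { exact := (ShortComplex.exact_iff_mono _ rfl).2 (by dsimp; infer_instance)
        mono_f := ⟨fun _ _ _ => (isZero_zero A).eq_of_tgt _ _⟩
        epi_g := by dsimp; infer_instance }
    refine CompSeries.step _ _ (pair_of_ses τ hzero hM hM _ _ _ s0) (simple M hM hr)
      (CompSeries.zero ?_)
    rw [IsZero.iff_id_eq_zero, ← Gm_id, ← Gm_zero]
    congr 1
    exact (isZero_zero A).eq_of_src _ _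
  have c1 : CompSeries (G τ (P ⊞ Q) hPQ) [G τ Q hQ, G τ P hP] :=
    CompSeries.step _ _ (pair_of_ses τ hP hPQ hQ _ _ _ ses1) (simple Q hQ rQ) (one P hP rP)
  have c2 : CompSeries (G τ (P ⊞ Q) hPQ) [G τ I hI, G τ (kernel π) hK] :=
    CompSeries.step _ _ (pair_of_ses τ hK hPQ hI _ _ _ ses2) (simple I hI rI)
      (one (kernel π) hK rK)
  obtain ⟨e, he⟩ := hJH _ _ _ c1 c2
  obtain ⟨j, hj⟩ := e.surjective (⟨0, by simp⟩ : Fin [G τ I hI, G τ (kernel π) hK].length)
  obtain ⟨e'⟩ := he j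
  rw [hj] at e'
  match j, e' with
  | ⟨0, _⟩, e' =>
    obtain ⟨e''⟩ := iso_of_G τ (hM := hQ) (hN := hI) e'
    exact hQI.false e''
  | ⟨1, _⟩, e' =>
    obtain ⟨e''⟩ := iso_of_G τ (hM := hP) (hN := hI) e'
    exact hPI.false e''

end Pool.Agent.V1166.Lax
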