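import Pool.Agent.V1166.Lax.Defs

/-!
# The slicing of the bounded derived category given by a torsion pair
-/

namespace Pool.Agent.V1166.Lax

open CategoryTheory Limits Pretriangulated Triangulated DerivedCategory

universe w v u

section HNgen

variable {C : Type u} [Category.{v} C] [Preadditive C] [HasZeroObject C] [HasShift C ℤ]
  [∀ n : ℤ, (shiftFunctor C n).Additive] [Pretriangulated C]

set_option backward.isDefEq.respectTransparency false in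
set_option backward.defeqAttrib.useBackward true in
lemma HN.ofIso {P : ℝ → ObjectProperty C} {X Y : C} {L : List ℝ} (h : HN P X L) (e : X ≅ Y) :
    HN P Y L := by
  cases h with
  | zero hX => exact HN.zero (hX.of_iso e.symm)
  | step f g h hT hA hA0 hφ hX' =>
    refine HN.step (f ≫ e.hom) (e.inv ≫ g) h ?_ hA hA0 hφ hX'
    exact isomorphic_distinguished _ hT _
      (Triangle.isoMk _ _ (Iso.refl _) e.symm (Iso.refl _) (by simp) (by simp) (by simp))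

set_option backward.isDefEq.respectTransparency false in
set_option backward.defeqAttrib.useBackward true in
lemma dist_replace3 {X Y Z Z' : C} (f : X ⟶ Y) (g : Y ⟶ Z) (h : Z ⟶ X⟦(1 : ℤ)⟧)
    (hT : Triangle.mk f g h ∈ distTriang C) (e : Z ≅ Z') :
    Triangle.mk f (g ≫ e.hom) (e.inv ≫ h) ∈ distTriang C :=
  isomorphic_distinguished _ hT _
    (Triangle.isoMk _ _ (Iso.refl _) (Iso.refl _) e.symm (by simp) (by simp) (by simp))

lemma HN.stepZ {P : ℝ → ObjectProperty C} {X' X A : C} {φ : ℝ} {L : List ℝ}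
    (f : X' ⟶ X) (g : X ⟶ A) (h : A ⟶ X'⟦(1 : ℤ)⟧)
    (hT : Triangle.mk f g h ∈ distTriang C) (hA : P φ A)
    (hφ : ∀ ψ ∈ L, φ < ψ) (hX' : HN P X' L) : ∃ L', HN P X L' ∧ ∀ ψ ∈ L', ψ = φ ∨ ψ ∈ L := by
  by_cases hA0 : IsZero A
  · have : IsIso f := (Triangle.isZero₃_iff_isIso₁ _ hT).1 hA0
    exact ⟨L, hX'.ofIso (asIso f), fun ψ hψ => Or.inr hψ⟩
  · refine ⟨φ :: L, HN.step f g h hT hA hA0 hφ hX', fun ψ hψ => ?_⟩
    simpa using hψ

/-- Two steps at once, using the octahedral axiom. -/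
lemma HN.stepTwo [IsTriangulated C] {P : ℝ → ObjectProperty C} {X' X Y A B : C} {φ χ : ℝ}
    {L : List ℝ}
    (f : X' ⟶ X) (g : X ⟶ Y) (h : Y ⟶ X'⟦(1 : ℤ)⟧) (hT : Triangle.mk f g h ∈ distTriang C)
    (a : A ⟶ Y) (b : Y ⟶ B) (c : B ⟶ A⟦(1 : ℤ)⟧) (hT' : Triangle.mk a b c ∈ distTriang C)
    (hA : P φ A) (hB : P χ B) (hχ : χ < φ)
    (hφ : ∀ ψ ∈ L, φ < ψ) (hX' : HN P X' L) :
    ∃ L', HN P X L' ∧ ∀ ψ ∈ L', ψ = φ ∨ ψ = χ ∨ ψ ∈ L := by
  have h1 : ObjectProperty.extensionProduct (fun Z => Z = X')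
      (ObjectProperty.extensionProduct (fun Z => Z = A) (fun Z => Z = B)) X :=
    ⟨_, _, f, g, h, hT, rfl, ⟨_, _, a, b, c, hT', rfl, rfl⟩⟩
  rw [← ObjectProperty.extensionProduct_assoc] at h1
  obtain ⟨Z, B', f₁, g₁, h₁, hT₁, ⟨X'', A', f₂, g₂, h₂, hT₂, hX'', hA'⟩, hB'⟩ := h1
  subst hX'' hA' hB'
  obtain ⟨L₁, hL₁, hL₁'⟩ := HN.stepZ f₂ g₂ h₂ hT₂ hA hφ hX'
  obtain ⟨L₂, hL₂, hL₂'⟩ := HN.stepZ f₁ g₁ h₁ hT₁ hB (φ := χ) (L := L₁) (fun ψ hψ => by
    rcases hL₁' ψ hψ with rfl | h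
    · exact hχ
    · exact hχ.trans (hφ ψ h)) hL₁
  refine ⟨L₂, hL₂, fun ψ hψ => ?_⟩
  rcases hL₂' ψ hψ with rfl | h
  · exact Or.inr (Or.inl rfl)
  · rcases hL₁' ψ h with rfl | h
    · exact Or.inl rfl
    · exact Or.inr (Or.inr h)

end HNgen

variable {A : Type u} [Category.{v} A] [Abelian A]

variable (A) in
/-- A torsion pair in an abelian category. -/
structure TorsionPair where
  T : ObjectProperty A
  F : ObjectProperty A
  isoT : ∀ X Y : A, (X ≅ Y) → T X → T Y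
  isoF : ∀ X Y : A, (X ≅ Y) → F X → F Y
  zeroT : ∀ X : A, IsZero X → T X
  zeroF : ∀ X : A, IsZero X → F X
  biprodT : ∀ X Y : A, T X → T Y → T (X ⊞ Y)
  biprodF : ∀ X Y : A, F X → F Y → F (X ⊞ Y)
  hom : ∀ (X Y : A), T X → F Y → ∀ f : X ⟶ Y, f = 0
  ses : ∀ X : A, ∃ (X₁ X₃ : A) (f : X₁ ⟶ X) (g : X ⟶ X₃) (w : f ≫ g = 0),
    (ShortComplex.mk f g w).ShortExact ∧ T X₁ ∧ F X₃

variable [HasDerivedCategory.{w} A] (τ : TorsionPair A)

/-- The object `M[n]` of the derived category. -/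
noncomputable abbrev sh (M : A) (n : ℤ) : DerivedCategory A :=
  ((singleFunctor A 0).obj M)⟦n⟧

/-- The family of subcategories of the derived category. -/
def PD (φ : ℝ) : ObjectProperty (DerivedCategory A) := fun X =>
  IsZero X ∨ (∃ (n : ℤ) (M : A), τ.F M ∧ φ = n + 1 / 2 ∧ Nonempty (X ≅ sh M n)) ∨
    (∃ (n : ℤ) (M : A), τ.T M ∧ φ = n + 1 ∧ Nonempty (X ≅ sh M n))

lemma PD_iso {φ : ℝ} {X Y : DerivedCategory A} (e : X ≅ Y) (h : PD τ φ X) : PD τ φ Y := by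
  rcases h with h | ⟨n, M, hM, hn, ⟨e'⟩⟩ | ⟨n, M, hM, hn, ⟨e'⟩⟩
  · exact Or.inl (h.of_iso e.symm)
  · exact Or.inr (Or.inl ⟨n, M, hM, hn, ⟨e.symm ≪≫ e'⟩⟩)
  · exact Or.inr (Or.inr ⟨n, M, hM, hn, ⟨e.symm ≪≫ e'⟩⟩)

instance sh_isLE (M : A) (n : ℤ) : (TStructure.t).IsLE (sh M n) (-n) :=
  TStructure.t.isLE_shift _ 0 n (-n) (by lia)

instance sh_isGE (M : A) (n : ℤ) : (TStructure.t).IsGE (sh M n) (-n) :=
  TStructure.t.isGE_shift _ 0 n (-n) (by lia)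

lemma exists_iso_sh (X : DerivedCategory A) (n : ℤ) (h₁ : TStructure.t.IsLE X (-n))
    (h₂ : TStructure.t.IsGE X (-n)) : ∃ M : A, Nonempty (X ≅ sh M n) := by
  have h₃ : (X⟦-n⟧).IsLE 0 := TStructure.t.isLE_shift _ (-n) (-n) 0 (by lia)
  have h₄ : (X⟦-n⟧).IsGE 0 := TStructure.t.isGE_shift _ (-n) (-n) 0 (by lia)
  obtain ⟨M, ⟨e⟩⟩ := exists_iso_singleFunctor_obj_of_isGE_of_isLE (X⟦-n⟧) 0
  exact ⟨M, ⟨((shiftEquiv (DerivedCategory A) n).counitIso.app X).symm ≪≫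
    (shiftFunctor _ n).mapIso e⟩⟩

lemma sh_hom_zero_of_lt (M N : A) (m n : ℤ) (h : n < m) (f : sh M m ⟶ sh N n) : f = 0 :=
  TStructure.t.zero f (-m) (-n) (by lia)

lemma sh_hom_zero (M N : A) (n : ℤ) (h : ∀ f : M ⟶ N, f = 0) (f : sh M n ⟶ sh N n) : f = 0 := by
  obtain ⟨g, rfl⟩ := (shiftFunctor (DerivedCategory A) n).map_surjective f
  obtain ⟨k, rfl⟩ := (singleFunctor A 0).map_surjective g
  rw [h k, CategoryTheory.Functor.map_zero, CategoryTheory.Functor.map_zero]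

lemma PD_hom {φ₁ φ₂ : ℝ} (hφ : φ₂ < φ₁) {X Y : DerivedCategory A} (hX : PD τ φ₁ X)
    (hY : PD τ φ₂ Y) (f : X ⟶ Y) : f = 0 := by
  have key : ∀ (M N : A) (m n : ℤ) (_ : X ≅ sh M m) (_ : Y ≅ sh N n),
      (∀ f : sh M m ⟶ sh N n, f = 0) → f = 0 := by
    intro M N m n e e' h
    rw [← cancel_epi e.inv, ← cancel_mono e'.hom, comp_zero, zero_comp]
    exact h _
  rcases hX with h | ⟨m, M, hM, hm, ⟨e⟩⟩ | ⟨m, M, hM, hm, ⟨e⟩⟩
  · exact h.eq_of_src _ _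
  · rcases hY with h | ⟨n, N, hN, hn, ⟨e'⟩⟩ | ⟨n, N, hN, hn, ⟨e'⟩⟩
    · exact h.eq_of_tgt _ _
    · refine key M N m n e e' (sh_hom_zero_of_lt M N m n ?_)
      have : (n : ℝ) < m := by linarith
      exact_mod_cast this
    · refine key M N m n e e' (sh_hom_zero_of_lt M N m n ?_)
      have : (n : ℝ) < m := by linarith
      exact_mod_cast this
  · rcases hY with h | ⟨n, N, hN, hn, ⟨e'⟩⟩ | ⟨n, N, hN, hn, ⟨e'⟩⟩
    · exact h.eq_of_tgt _ _
    · have hnm : n < m + 1 := by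
        have : (n : ℝ) < ((m + 1 : ℤ) : ℝ) := by push_cast; linarith
        exact_mod_cast this
      rcases (Int.lt_add_one_iff.1 hnm).lt_or_eq with hlt | rfl
      · exact key M N m n e e' (sh_hom_zero_of_lt M N m n hlt)
      · exact key M N n n e e' (sh_hom_zero M N n (τ.hom M N hM hN))
    · refine key M N m n e e' (sh_hom_zero_of_lt M N m n ?_)
      have : (n : ℝ) < m := by linarith
      exact_mod_cast this

lemma PD_shift_mp {φ : ℝ} {X : DerivedCategory A} (h : PD τ φ X) (k : ℤ) :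
    PD τ (φ + k) (X⟦k⟧) := by
  rcases h with h | ⟨n, M, hM, hn, ⟨e'⟩⟩ | ⟨n, M, hM, hn, ⟨e'⟩⟩
  · exact Or.inl ((shiftFunctor (DerivedCategory A) k).map_isZero h)
  · exact Or.inr (Or.inl ⟨n + k, M, hM, by rw [hn]; push_cast; ring,
      ⟨(shiftFunctor _ k).mapIso e' ≪≫ ((shiftFunctorAdd (DerivedCategory A) n k).app _).symm⟩⟩)
  · exact Or.inr (Or.inr ⟨n + k, M, hM, by rw [hn]; push_cast; ring,
      ⟨(shiftFunctor _ k).mapIso e' ≪≫ ((shiftFunctorAdd (DerivedCategory A) n k).app _).symm⟩⟩)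

lemma PD_shift {φ : ℝ} {X : DerivedCategory A} : PD τ φ X ↔ PD τ (φ + 1) (X⟦(1 : ℤ)⟧) := by
  constructor
  · intro h
    have := PD_shift_mp τ h 1
    simpa using this
  · intro h
    have := PD_shift_mp τ h (-1)
    refine PD_iso τ ((shiftEquiv (DerivedCategory A) (1 : ℤ)).unitIso.symm.app X) ?_
    have e1 : φ + 1 + ((-1 : ℤ) : ℝ) = φ := by push_cast; ring
    rw [e1] at this
    exact this

lemma sh_biprod (M N : A) (n : ℤ) : Nonempty (sh M n ⊞ sh N n ≅ sh (M ⊞ N) n) := by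
  have h1 : (singleFunctor A 0 ⋙ shiftFunctor (DerivedCategory A) n).Additive := inferInstance
  have h2 := Functor.preservesFiniteBiproductsOfAdditive
    (singleFunctor A 0 ⋙ shiftFunctor (DerivedCategory A) n)
  have h3 := preservesBinaryBiproducts_of_preservesBiproducts
    (singleFunctor A 0 ⋙ shiftFunctor (DerivedCategory A) n)
  exact ⟨(Functor.mapBiprod ((singleFunctor A 0) ⋙ shiftFunctor (DerivedCategory A) n) M N).symm⟩

lemma PD_biprod {φ : ℝ} {X Y : DerivedCategory A} (hX : PD τ φ X) (hY : PD τ φ Y) :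
    PD τ φ (X ⊞ Y) := by
  rcases hX with h | ⟨m, M, hM, hm, ⟨e⟩⟩ | ⟨m, M, hM, hm, ⟨e⟩⟩
  · exact PD_iso τ (isoZeroBiprod h) hY
  · rcases hY with h | ⟨n, N, hN, hn, ⟨e'⟩⟩ | ⟨n, N, hN, hn, ⟨e'⟩⟩
    · exact PD_iso τ (isoBiprodZero h) (Or.inr (Or.inl ⟨m, M, hM, hm, ⟨e⟩⟩))
    · have : m = n := by
        have : (m : ℝ) = n := by linarith
        exact_mod_cast this
      subst this
      obtain ⟨e''⟩ := sh_biprod M N m
      exact Or.inr (Or.inl ⟨m, M ⊞ N, τ.biprodF _ _ hM hN, hm, ⟨biprod.mapIso e e' ≪≫ e''⟩⟩)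
    · exfalso
      have : ((2 * m : ℤ) : ℝ) = ((2 * n + 1 : ℤ) : ℝ) := by push_cast; linarith
      have h2 : 2 * m = 2 * n + 1 := by exact_mod_cast this
      lia
  · rcases hY with h | ⟨n, N, hN, hn, ⟨e'⟩⟩ | ⟨n, N, hN, hn, ⟨e'⟩⟩
    · exact PD_iso τ (isoBiprodZero h) (Or.inr (Or.inr ⟨m, M, hM, hm, ⟨e⟩⟩))
    · exfalso
      have : ((2 * n : ℤ) : ℝ) = ((2 * m + 1 : ℤ) : ℝ) := by push_cast; linarith
      have h2 : 2 * n = 2 * m + 1 := by exact_mod_cast this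
      lia
    · have : m = n := by
        have : (m : ℝ) = n := by linarith
        exact_mod_cast this
      subst this
      obtain ⟨e''⟩ := sh_biprod M N m
      exact Or.inr (Or.inr ⟨m, M ⊞ N, τ.biprodT _ _ hM hN, hm, ⟨biprod.mapIso e e' ≪≫ e''⟩⟩)

/-- A short exact sequence gives a distinguished triangle on shifts. -/
lemma sh_triangle {S : ShortComplex A} (hS : S.ShortExact) (n : ℤ) :
    ∃ (f : sh S.X₁ n ⟶ sh S.X₂ n) (g : sh S.X₂ n ⟶ sh S.X₃ n) (h : sh S.X₃ n ⟶ (sh S.X₁ n)⟦(1 : ℤ)⟧),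
      Triangle.mk f g h ∈ distTriang (DerivedCategory A) :=
  ⟨_, _, _, Triangle.shift_distinguished _ hS.singleTriangle_distinguished n⟩

lemma PD_hn (k : ℕ) : ∀ (b : ℤ) (X : DerivedCategory A), TStructure.t.IsLE X b →
    TStructure.t.IsGE X (b - k + 1) →
    ∃ L : List ℝ, HN (PD τ) X L ∧ ∀ ψ ∈ L, (-b : ℝ) + 1 / 2 ≤ ψ := by
  induction k with
  | zero =>
    intro b X h₁ h₂
    refine ⟨[], HN.zero (TStructure.t.isZero X b (b - (0 : ℕ) + 1) (by simp)), by simp⟩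
  | succ k ih =>
    intro b X h₁ h₂
    have h₃ : TStructure.t.IsGE X (b - k) := by
      have : b - ((k + 1 : ℕ) : ℤ) + 1 = b - k := by push_cast; ring
      rwa [this] at h₂
    obtain ⟨L, hL, hL'⟩ := ih (b - 1) ((TStructure.t.truncLE (b - 1)).obj X) inferInstance (by
      have : b - 1 - (k : ℤ) + 1 = b - k := by ring
      rw [this]
      infer_instance)
    have hT := TStructure.t.triangleLEGE_distinguished (b - 1) b (by lia) X
    obtain ⟨M, ⟨e⟩⟩ := exists_iso_sh ((TStructure.t.truncGE b).obj X) (-b)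
      (by rw [neg_neg]; infer_instance) (by rw [neg_neg]; infer_instance)
    obtain ⟨M₁, M₃, f, g, w, hS, hM₁, hM₃⟩ := τ.ses M
    obtain ⟨f', g', h', hT'⟩ := sh_triangle hS (-b)
    have hT₁ := dist_replace3 _ _ _ hT e
    obtain ⟨L', h1, h2⟩ := HN.stepTwo (P := PD τ) (φ := (-b : ℝ) + 1) (χ := (-b : ℝ) + 1 / 2)
      _ _ _ hT₁ _ _ _ hT'
      (Or.inr (Or.inr ⟨-b, M₁, hM₁, by push_cast; ring, ⟨Iso.refl _⟩⟩))
      (Or.inr (Or.inl ⟨-b, M₃, hM₃, by push_cast; ring, ⟨Iso.refl _⟩⟩))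
      (by linarith) (fun ψ hψ => by
        have := hL' ψ hψ
        push_cast at this
        linarith) hL
    refine ⟨L', h1, fun ψ hψ => ?_⟩
    rcases h2 ψ hψ with rfl | rfl | h
    · linarith
    · linarith
    · have := hL' ψ h
      push_cast at this
      linarith

end Pool.Agent.V1166.Lax
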